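import Pool.Agent.Run7.h432.LV.Stm2

/-! # Piece CPL of the project LV (helper67) -/

set_option autoImplicit false

namespace Run7.h67.LV

open Run7.h432.LV

universe u

theorem mem_inr_iff {X : Type u} {ι : Type} (w : List (X ⊕ ι)) (i : ι) :
    Sum.inr i ∈ w ↔ i ∈ w.filterMap Sum.getRight? := by
  rw [List.mem_filterMap]
  constructor
  · intro h
    exact ⟨Sum.inr i, h, rfl⟩
  · rintro ⟨a, ha, hai⟩
    cases a with
    | inl c => simp at hai
    | inr j =>
      have : j = i := by simpa using hai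
      rw [← this]; exact ha

theorem lift_word {U₀ U : Type u} [Ring U₀] [Ring U] (φ : U₀ →+* U) (N : ℤ)
    (hc : ∀ c : U, ∃ (k : ℕ) (c₀ : U₀), (N : U) ^ k * c = φ c₀) {n : ℕ} (k : ℕ)
    (w : List (U ⊕ Fin n)) : ∃ (K : ℕ) (w₀ : List (U₀ ⊕ Fin n)),
      w₀.filterMap Sum.getRight? = w.filterMap Sum.getRight? ∧
      ∀ (y : Fin n → U) (y₀ : Fin n → U₀), (∀ i, (N : U) ^ k * y i = φ (y₀ i)) →
        (N : U) ^ K * ev w y = φ (ev w₀ y₀) := by
  have hcom : ∀ (l : ℕ) (c : U), (N : U) ^ l * c = c * (N : U) ^ l := fun l c =>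
    ((Int.cast_commute N c).pow_left l).eq
  induction w with
  | nil =>
    refine ⟨0, [], rfl, fun y y₀ _ => ?_⟩
    simp [ev]
  | cons a w ih =>
    obtain ⟨K, w₀, h1, h2⟩ := ih
    cases a with
    | inl c =>
      obtain ⟨l, c₀, hl⟩ := hc c
      refine ⟨l + K, Sum.inl c₀ :: w₀, ?_, fun y y₀ hy => ?_⟩
      · rw [List.filterMap_cons_none rfl, List.filterMap_cons_none rfl]
        exact h1
      · have h3 := h2 y y₀ hy
        have e1 : ev (Sum.inl c :: w) y = c * ev w y := by simp [ev]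
        have e2 : ev (Sum.inl c₀ :: w₀) y₀ = c₀ * ev w₀ y₀ := by simp [ev]
        rw [e1, e2, map_mul, ← hl, ← h3, pow_add]
        rw [mul_assoc, ← mul_assoc ((N : U) ^ K) c, hcom K c]
        simp only [mul_assoc]
    | inr i =>
      refine ⟨k + K, Sum.inr i :: w₀, ?_, fun y y₀ hy => ?_⟩
      · simpa using h1
      · have h3 := h2 y y₀ hy
        have e1 : ev (Sum.inr i :: w) y = y i * ev w y := by simp [ev]
        have e2 : ev (Sum.inr i :: w₀) y₀ = y₀ i * ev w₀ y₀ := by simp [ev]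
        rw [e1, e2, map_mul, ← hy i, ← h3, pow_add]
        rw [mul_assoc, ← mul_assoc ((N : U) ^ K) (y i), hcom K (y i)]
        simp only [mul_assoc]

theorem t_CPL : S_CPL.{u} := by
  intro U₀ U _ _ φ N hN hc I _ J hJ n hCap w hw x hx
  -- a common exponent
  choose κ c₀ hcI hκ using fun i => hJ (x i) (hx i)
  let K0 : ℕ := ∑ i, κ i
  have hle : ∀ i, κ i ≤ K0 := fun i => Finset.single_le_sum (fun _ _ => Nat.zero_le _)
    (Finset.mem_univ i)
  let x₀ : Fin n → U₀ := fun i => (N : U₀) ^ (K0 - κ i) * c₀ i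
  have hx₀ : ∀ i, x₀ i ∈ I := fun i => I.mul_mem_left _ (hcI i)
  have hxx : ∀ i, (N : U) ^ K0 * x i = φ (x₀ i) := by
    intro i
    show (N : U) ^ K0 * x i = φ ((N : U₀) ^ (K0 - κ i) * c₀ i)
    rw [map_mul, map_pow, map_intCast, ← hκ i, ← mul_assoc, ← pow_add,
      Nat.sub_add_cancel (hle i)]
  obtain ⟨K, w₀, h1, h2⟩ := lift_word φ N hc K0 w
  have hw₀ : Once w₀ := by
    refine ⟨by rw [h1]; exact hw.1, fun i => ?_⟩
    rw [mem_inr_iff, h1, ← mem_inr_iff]
    exact hw.2 i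
  have h3 : (N : U) ^ K * alt w x = φ (alt w₀ x₀) := by
    unfold alt
    rw [Finset.mul_sum, map_sum]
    refine Finset.sum_congr rfl fun σ _ => ?_
    rw [mul_smul_comm, h2 (x ∘ σ) (x₀ ∘ σ) (fun i => hxx (σ i)), map_zsmul]
  rw [hCap w₀ hw₀ x₀ hx₀, map_zero] at h3
  exact ((hN.pow K).mul_right_eq_zero).1 h3

end Run7.h67.LV
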