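import Pool.Agent.Run7.h432.LV.Stm

/-! # Piece STAR of the project LV (helper67) -/

set_option autoImplicit false

namespace Run7.h67.LV

open Run7.h432.LV

universe u

theorem capV {U : Type u} [Ring U] {I : Ideal U} {n : ℕ} (hC : Cap I n)
    {G : (Fin n → U) → U} (hG : G ∈ V U (Fin n)) :
    ∀ y : Fin n → U, (∀ i, y i ∈ I) →
      ∑ σ : Equiv.Perm (Fin n), (Equiv.Perm.sign σ : ℤ) • G (y ∘ σ) = 0 := by
  unfold V at hG
  induction hG using AddSubgroup.closure_induction with
  | mem G hG =>
    obtain ⟨w, hw, rfl⟩ := hG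
    intro y hy
    exact hC w hw y hy
  | zero =>
    intro y _
    simp
  | add f g _ _ hf hg =>
    intro y hy
    have h1 := hf y hy
    have h2 := hg y hy
    simp only [Pi.add_apply, smul_add, Finset.sum_add_distrib, h1, h2, add_zero]
  | neg f _ hf =>
    intro y hy
    have h1 := hf y hy
    simp only [Pi.neg_apply, smul_neg, Finset.sum_neg_distrib, h1, neg_zero]

theorem extend_swap {U : Type u} {ι κ : Type} [DecidableEq ι] [DecidableEq κ] {j : κ → ι}
    (hj : Function.Injective j) (y : κ → U) (x : ι → U) (p q : κ) :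
    Function.extend j (y ∘ Equiv.swap p q) x =
      Function.extend j y x ∘ Equiv.swap (j p) (j q) := by
  funext i
  by_cases h : ∃ l, j l = i
  · obtain ⟨l, rfl⟩ := h
    rw [hj.extend_apply, Function.comp_apply, Function.comp_apply, hj.swap_apply,
      hj.extend_apply]
  · rw [Function.extend_apply' _ _ _ h, Function.comp_apply]
    have h1 : Equiv.swap (j p) (j q) i = i :=
      Equiv.swap_apply_of_ne_of_ne (fun e => h ⟨p, e.symm⟩) (fun e => h ⟨q, e.symm⟩)
    rw [h1, Function.extend_apply' _ _ _ h]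

theorem extend_self {U : Type u} {ι κ : Type} {j : κ → ι}
    (hj : Function.Injective j) (x : ι → U) : Function.extend j (x ∘ j) x = x := by
  funext i
  by_cases h : ∃ l, j l = i
  · obtain ⟨l, rfl⟩ := h
    rw [hj.extend_apply]; rfl
  · rw [Function.extend_apply' _ _ _ h]

/-- the extension of a permutation of the block -/
def ex {m : ℕ} (e : Equiv.Perm (Fin m)) : Fin (m + 1) → Fin (m + 1) :=
  Fin.cons 0 fun l => (e l).succ

theorem ex_zero {m : ℕ} (e : Equiv.Perm (Fin m)) : ex e 0 = 0 := rfl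

theorem ex_succ {m : ℕ} (e : Equiv.Perm (Fin m)) (l : Fin m) : ex e l.succ = (e l).succ := rfl

theorem alt_ex {U : Type u} [Ring U] {m : ℕ} {G : (Fin (m + 1) → U) → U}
    (hG : ∀ i k : Fin m, i ≠ k → ∀ y, G (y ∘ Equiv.swap i.succ k.succ) = - G y)
    (e : Equiv.Perm (Fin m)) : ∀ y, G (y ∘ ex e) = (Equiv.Perm.sign e : ℤ) • G y := by
  induction e using Equiv.Perm.swap_induction_on with
  | one =>
    intro y
    have : y ∘ ex (1 : Equiv.Perm (Fin m)) = y := by
      funext i
      refine Fin.cases ?_ (fun l => ?_) i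
      · rfl
      · rfl
    rw [this]; simp
  | swap_mul f i k hik hf =>
    intro y
    have h1 : y ∘ ex (Equiv.swap i k * f) = (y ∘ Equiv.swap i.succ k.succ) ∘ ex f := by
      funext l
      refine Fin.cases ?_ (fun l => ?_) l
      · show y 0 = y (Equiv.swap i.succ k.succ 0)
        rw [Equiv.swap_apply_of_ne_of_ne (Fin.succ_ne_zero i).symm (Fin.succ_ne_zero k).symm]
      · show y ((Equiv.swap i k (f l)).succ) = y (Equiv.swap i.succ k.succ (f l).succ)
        rw [(Fin.succ_injective m).swap_apply]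
    rw [h1, hf, hG i k hik, Equiv.Perm.sign_mul, Equiv.Perm.sign_swap hik]
    simp

theorem fact_unit {U : Type u} [Ring U] {m : ℕ} (h : Inv U m) :
    ∀ n, n ≤ m → IsUnit ((n.factorial : ℕ) : U) := by
  intro n
  induction n with
  | zero => intro _; simp
  | succ n ih =>
    intro hn
    rw [Nat.factorial_succ, Nat.cast_mul]
    exact (h (n + 1) (Nat.succ_pos n) hn).mul (ih (by omega))

/-- the sign of `swap 0 p` -/
def sg {m : ℕ} (p : Fin (m + 1)) : ℤ := if p = 0 then 1 else -1

theorem t_STAR (hVE : S_VE.{u}) : S_STAR.{u} := by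
  classical
  intro U _ I _ m hI hC ι _ F hF a ha hA z hz x hxa hxz
  let j : Fin (m + 1) → ι := Fin.cons z a
  have hj0 : j 0 = z := rfl
  have hjs : ∀ i : Fin m, j i.succ = a i := fun i => rfl
  have hj : Function.Injective j := by
    refine Fin.cons_injective_iff.2 ⟨hz, ha⟩
  let G : (Fin (m + 1) → U) → U := fun y => F (Function.extend j y x)
  have hG : G ∈ V U (Fin (m + 1)) := hVE U ι (Fin (m + 1)) F hF j hj x
  have hsum := capV hC hG (x ∘ j) (fun i => by
    refine Fin.cases ?_ (fun l => ?_) i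
    · exact hxz
    · exact hxa l)
  have hGs : ∀ i k : Fin m, i ≠ k → ∀ y, G (y ∘ Equiv.swap i.succ k.succ) = - G y := by
    intro i k hik y
    show F (Function.extend j (y ∘ Equiv.swap i.succ k.succ) x) = - F (Function.extend j y x)
    rw [extend_swap hj, hjs, hjs]
    have := hA i k hik (Function.extend j y x)
    convert this using 3
  have hterm : ∀ q : Fin (m + 1) × Equiv.Perm (Fin m),
      (Equiv.Perm.sign (Equiv.Perm.decomposeFin.symm q) : ℤ) •
        G ((x ∘ j) ∘ Equiv.Perm.decomposeFin.symm q) =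
      sg q.1 • G ((x ∘ j) ∘ Equiv.swap 0 q.1) := by
    rintro ⟨p, e⟩
    have h1 : (x ∘ j) ∘ Equiv.Perm.decomposeFin.symm (p, e) =
        ((x ∘ j) ∘ Equiv.swap 0 p) ∘ ex e := by
      funext l
      refine Fin.cases ?_ (fun l => ?_) l
      · show x (j (Equiv.Perm.decomposeFin.symm (p, e) 0)) = x (j (Equiv.swap 0 p 0))
        rw [Equiv.Perm.decomposeFin_symm_apply_zero, Equiv.swap_apply_left]
      · show x (j (Equiv.Perm.decomposeFin.symm (p, e) l.succ)) =
          x (j (Equiv.swap 0 p (e l).succ))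
        rw [Equiv.Perm.decomposeFin_symm_apply_succ]
    rw [h1, alt_ex hGs e, Equiv.Perm.decomposeFin.symm_sign, smul_smul]
    congr 1
    have h2 : (Equiv.Perm.sign e : ℤ) * (Equiv.Perm.sign e : ℤ) = 1 := by
      rw [← Units.val_mul, Int.units_mul_self]; rfl
    show (((if p = 0 then (1 : ℤˣ) else -1) * Equiv.Perm.sign e : ℤˣ) : ℤ) *
      (Equiv.Perm.sign e : ℤ) = if p = 0 then (1 : ℤ) else -1
    rw [Units.val_mul, mul_assoc, h2, mul_one]
    split_ifs <;> rfl
  rw [← Equiv.Perm.decomposeFin.symm.sum_comp, Finset.sum_congr rfl fun q _ => hterm q,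
    Fintype.sum_prod_type] at hsum
  simp only [Finset.sum_const, Finset.card_univ, Fintype.card_perm, Fintype.card_fin] at hsum
  rw [← Finset.smul_sum, Fin.sum_univ_succ] at hsum
  simp only [sg, if_true, one_smul, Fin.succ_ne_zero, if_false, neg_smul,
    Finset.sum_neg_distrib] at hsum
  have hG0 : G ((x ∘ j) ∘ Equiv.swap 0 0) = F x := by
    show F (Function.extend j ((x ∘ j) ∘ Equiv.swap 0 0) x) = F x
    rw [Equiv.swap_self]
    show F (Function.extend j (x ∘ j) x) = F x
    rw [extend_self hj]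
  have hGi : ∀ i : Fin m, G ((x ∘ j) ∘ Equiv.swap 0 i.succ) = F (x ∘ Equiv.swap (a i) z) := by
    intro i
    show F (Function.extend j ((x ∘ j) ∘ Equiv.swap 0 i.succ) x) = _
    rw [extend_swap hj, extend_self hj, hj0, hjs, Equiv.swap_comm]
  rw [hG0, Finset.sum_congr rfl fun i _ => hGi i, ← sub_eq_add_neg] at hsum
  have hu := fact_unit hI m le_rfl
  rw [nsmul_eq_mul] at hsum
  have h0 := (hu.mul_right_eq_zero).1 hsum
  exact sub_eq_zero.1 h0

end Run7.h67.LV
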